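import Pool.Agent.Run7.h10.MAIN

/-!
# Exponential-algebraic closedness for simple abelian varieties

Let `A` be a simple complex abelian variety of dimension `g` and let `V` be an irreducible Zariski
closed subset of the product of `ℂ^g` and `A`, of dimension at least `g`. Then `V` meets the graph
of the exponential map of `A`; if moreover the projection of `V` to `ℂ^g` is not a single point,
then `V` meets this graph in infinitely many points.
-/

set_option autoImplicit false

namespace Pool.Agent.Results.MP_f17f76_ag.SimpleCase

open Pool.Agent.Run7.h10

theorem result {g N : ℕ} (A : AbelianVariety g N) (hs : A.IsSimple)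
    (V : Set ((Fin g → ℂ) × A.Pts)) (hV : A.Variety V) (hd : A.DimGE V g) :
    (∃ z, (z, A.exp z) ∈ V) ∧
      ((∃ x ∈ V, ∃ y ∈ V, x.1 ≠ y.1) → {z | (z, A.exp z) ∈ V}.Infinite) :=
  main_simple hs hV hd

end Pool.Agent.Results.MP_f17f76_ag.SimpleCase
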